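import Pool.Agent.Helper68.BA.Defs

/-! # Module WI: Wirtinger derivatives and modes -/

set_option autoImplicit false

noncomputable section

namespace Pool.Agent.Helper68.BA

open MeasureTheory Set Filter Topology Complex
open scoped ContDiff

theorem wi_fderiv_contDiff (φ : ℂ → ℂ) (h : ContDiff ℝ ∞ φ) : ContDiff ℝ ∞ (fderiv ℝ φ) :=
  h.fderiv_right (by simp)

theorem dz_contDiff (φ : ℂ → ℂ) (h : ContDiff ℝ ∞ φ) : ContDiff ℝ ∞ (dz φ) := by
  have h1 := wi_fderiv_contDiff φ h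
  unfold dz
  exact ((h1.clm_apply contDiff_const).sub
    (contDiff_const.mul (h1.clm_apply contDiff_const))).div_const 2

theorem dzbar_contDiff (φ : ℂ → ℂ) (h : ContDiff ℝ ∞ φ) : ContDiff ℝ ∞ (dzbar φ) := by
  have h1 := wi_fderiv_contDiff φ h
  unfold dzbar
  exact ((h1.clm_apply contDiff_const).add
    (contDiff_const.mul (h1.clm_apply contDiff_const))).div_const 2

theorem dz_hasCompactSupport (φ : ℂ → ℂ) (h : HasCompactSupport φ) :
    HasCompactSupport (dz φ) := by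
  have h1 := h.fderiv (𝕜 := ℝ)
  exact h1.comp_left (g := fun L : ℂ →L[ℝ] ℂ => (L 1 - I * L I) / 2) (by simp)

theorem dzbar_hasCompactSupport (φ : ℂ → ℂ) (h : HasCompactSupport φ) :
    HasCompactSupport (dzbar φ) := by
  have h1 := h.fderiv (𝕜 := ℝ)
  exact h1.comp_left (g := fun L : ℂ →L[ℝ] ℂ => (L 1 + I * L I) / 2) (by simp)

theorem wi_diff {φ : ℂ → ℂ} (hd : ContDiff ℝ ∞ φ) (z : ℂ) :
    HasFDerivAt φ (fderiv ℝ φ z) z :=
  (hd.differentiable (by simp) z).hasFDerivAt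

theorem wi_mode_fderiv {k : ℤ} {φ : ℂ → ℂ} (h : HasMode k φ) (hd : ContDiff ℝ ∞ φ) (θ : ℝ)
    (z v : ℂ) : fderiv ℝ φ (cexp (θ * I) * z) (cexp (θ * I) * v) =
      cexp (k * θ * I) * fderiv ℝ φ z v := by
  have h1 : HasFDerivAt (fun z : ℂ => cexp (θ * I) * z)
      (cexp (θ * I) • ContinuousLinearMap.id ℝ ℂ) z := (hasFDerivAt_id z).const_mul _
  have h2 := (wi_diff hd (cexp (θ * I) * z)).comp z h1
  have h3 : HasFDerivAt (fun z : ℂ => cexp (k * θ * I) * φ z)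
      (cexp (k * θ * I) • fderiv ℝ φ z) z := (wi_diff hd z).const_mul _
  have h4 : (φ ∘ fun z : ℂ => cexp (θ * I) * z) = fun z : ℂ => cexp (k * θ * I) * φ z := by
    funext w
    exact h θ w
  rw [h4] at h2
  have h5 := DFunLike.congr_fun (h2.unique h3) v
  simpa using h5

theorem wi_apply (L : ℂ →L[ℝ] ℂ) (θ : ℝ) :
    L (cexp (θ * I)) = Real.cos θ * L 1 + Real.sin θ * L I ∧
      L (cexp (θ * I) * I) = -(Real.sin θ * L 1) + Real.cos θ * L I := by
  have e : cexp (θ * I) = (Real.cos θ : ℝ) • (1 : ℂ) + (Real.sin θ : ℝ) • I := by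
    rw [exp_mul_I]
    simp [Complex.real_smul]
  have e2 : cexp (θ * I) * I = (-Real.sin θ : ℝ) • (1 : ℂ) + (Real.cos θ : ℝ) • I := by
    rw [exp_mul_I]
    simp only [Complex.real_smul, ofReal_neg, ofReal_sin, ofReal_cos, mul_one]
    linear_combination (Complex.sin θ) * I_mul_I
  constructor
  · rw [e, map_add, map_smul, map_smul, Complex.real_smul, Complex.real_smul]
  · rw [e2, map_add, map_smul, map_smul, Complex.real_smul, Complex.real_smul]
    push_cast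
    ring

theorem hasMode_dz {k : ℤ} {φ : ℂ → ℂ} (h : HasMode k φ) (hd : ContDiff ℝ ∞ φ) :
    HasMode (k - 1) (dz φ) := by
  intro θ z
  have h1 := wi_mode_fderiv h hd θ z 1
  have h2 := wi_mode_fderiv h hd θ z I
  obtain ⟨e1, e2⟩ := wi_apply (fderiv ℝ φ (cexp (θ * I) * z)) θ
  rw [mul_one, e1] at h1
  rw [e2] at h2
  have h3 : cexp (((k - 1 : ℤ) : ℂ) * θ * I) = cexp (k * θ * I) * cexp (-(θ * I)) := by
    rw [← Complex.exp_add]
    congr 1
    push_cast
    ring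
  have h4 : cexp (-(θ * I)) * cexp (θ * I) = 1 := by
    rw [← Complex.exp_add]
    simp
  have h5 : cexp (θ * I) = Real.cos θ + Real.sin θ * I := by
    rw [exp_mul_I]
    simp
  unfold dz
  rw [h3]
  have h6 : cexp (k * θ * I) * (fderiv ℝ φ z 1 - I * fderiv ℝ φ z I) =
      cexp (θ * I) * (fderiv ℝ φ (cexp (θ * I) * z) 1 - I * fderiv ℝ φ (cexp (θ * I) * z) I) := by
    rw [mul_sub, ← h1]
    rw [show cexp (k * θ * I) * (I * fderiv ℝ φ z I) = I * (cexp (k * θ * I) * fderiv ℝ φ z I) by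
      ring, ← h2]
    generalize fderiv ℝ φ (cexp (θ * I) * z) 1 = A
    generalize fderiv ℝ φ (cexp (θ * I) * z) I = B
    rw [h5]
    linear_combination (Real.sin θ * B) * I_mul_I
  have h7 : cexp (-(θ * I)) * (cexp (k * θ * I) * (fderiv ℝ φ z 1 - I * fderiv ℝ φ z I)) =
      fderiv ℝ φ (cexp (θ * I) * z) 1 - I * fderiv ℝ φ (cexp (θ * I) * z) I := by
    rw [h6, ← mul_assoc, h4, one_mul]
  rw [← h7]
  ring

theorem hasMode_dzbar {k : ℤ} {φ : ℂ → ℂ} (h : HasMode k φ) (hd : ContDiff ℝ ∞ φ) :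
    HasMode (k + 1) (dzbar φ) := by
  intro θ z
  have h1 := wi_mode_fderiv h hd θ z 1
  have h2 := wi_mode_fderiv h hd θ z I
  obtain ⟨e1, e2⟩ := wi_apply (fderiv ℝ φ (cexp (θ * I) * z)) θ
  rw [mul_one, e1] at h1
  rw [e2] at h2
  have h3 : cexp (((k + 1 : ℤ) : ℂ) * θ * I) = cexp (k * θ * I) * cexp (θ * I) := by
    rw [← Complex.exp_add]
    congr 1
    push_cast
    ring
  have h4 : cexp (θ * I) * (Real.cos θ - Real.sin θ * I) = 1 := by
    rw [exp_mul_I]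
    have := Complex.sin_sq_add_cos_sq θ
    push_cast
    linear_combination this - (Complex.sin θ) ^ 2 * I_sq
  unfold dzbar
  rw [h3]
  have h6 : cexp (k * θ * I) * (fderiv ℝ φ z 1 + I * fderiv ℝ φ z I) =
      (Real.cos θ - Real.sin θ * I) *
        (fderiv ℝ φ (cexp (θ * I) * z) 1 + I * fderiv ℝ φ (cexp (θ * I) * z) I) := by
    rw [mul_add, ← h1]
    rw [show cexp (k * θ * I) * (I * fderiv ℝ φ z I) = I * (cexp (k * θ * I) * fderiv ℝ φ z I) by
      ring, ← h2]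
    generalize fderiv ℝ φ (cexp (θ * I) * z) 1 = A
    generalize fderiv ℝ φ (cexp (θ * I) * z) I = B
    linear_combination (Real.sin θ * B) * I_mul_I
  have h7 : cexp (θ * I) * (cexp (k * θ * I) * (fderiv ℝ φ z 1 + I * fderiv ℝ φ z I)) =
      fderiv ℝ φ (cexp (θ * I) * z) 1 + I * fderiv ℝ φ (cexp (θ * I) * z) I := by
    rw [h6, ← mul_assoc, h4, one_mul]
  rw [← h7]
  ring

/-- The derivative in the angular direction. -/
theorem wi_angular {k : ℤ} {φ : ℂ → ℂ} (h : HasMode k φ) (hd : ContDiff ℝ ∞ φ) (r : ℝ) :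
    (r : ℂ) * fderiv ℝ φ r I = k * I * φ r := by
  have h1 : HasDerivAt (fun θ : ℝ => cexp (θ * I) * (r : ℂ)) (I * r) 0 := by
    have h0 : HasDerivAt (fun θ : ℝ => (θ : ℂ) * I) I 0 := by
      simpa using (Complex.ofRealCLM.hasDerivAt (x := 0)).mul_const I
    have := (h0.cexp).mul_const (r : ℂ)
    simpa using this
  have h2 : HasDerivAt (fun θ : ℝ => φ (cexp (θ * I) * (r : ℂ))) (fderiv ℝ φ r (I * r)) 0 := by
    have hφ : HasFDerivAt φ (fderiv ℝ φ r) (cexp (((0 : ℝ) : ℂ) * I) * (r : ℂ)) := by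
      simpa using wi_diff hd (r : ℂ)
    exact hφ.comp_hasDerivAt (0 : ℝ) h1
  have h3 : HasDerivAt (fun θ : ℝ => cexp (k * θ * I) * φ r) (k * I * φ r) 0 := by
    have h0 : HasDerivAt (fun θ : ℝ => (k : ℂ) * (θ : ℂ) * I) (k * I) 0 := by
      have := ((Complex.ofRealCLM.hasDerivAt (x := 0)).const_mul (k : ℂ)).mul_const I
      simpa using this
    have := (h0.cexp).mul_const (φ r)
    simpa using this
  have h4 : (fun θ : ℝ => φ (cexp (θ * I) * (r : ℂ))) = fun θ : ℝ => cexp (k * θ * I) * φ r := by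
    funext θ
    exact h θ r
  rw [h4] at h2
  have h5 := h2.unique h3
  rw [← h5]
  have : I * (r : ℂ) = (r : ℝ) • I := by
    rw [Complex.real_smul, mul_comm]
  rw [this, map_smul, Complex.real_smul]

theorem wi_radial {φ : ℂ → ℂ} (hd : ContDiff ℝ ∞ φ) (y : ℝ) :
    HasDerivAt (prof φ) ((Real.exp (y / 2) / 2 : ℂ) *
      fderiv ℝ φ ((Real.exp (y / 2) : ℝ) : ℂ) 1) y := by
  have h1 : HasDerivAt (fun y : ℝ => ((Real.exp (y / 2) : ℝ) : ℂ))
      ((Real.exp (y / 2) * (1 / 2) : ℝ) : ℂ) y :=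
    (((hasDerivAt_id y).div_const 2).exp).ofReal_comp
  have h2 := (wi_diff hd ((Real.exp (y / 2) : ℝ) : ℂ)).comp_hasDerivAt y h1
  have h3 : ((Real.exp (y / 2) * (1 / 2) : ℝ) : ℂ) = (Real.exp (y / 2) / 2 : ℝ) • (1 : ℂ) := by
    rw [Complex.real_smul, mul_one]
    push_cast
    ring
  rw [h3, map_smul, Complex.real_smul] at h2
  have h4 : HasDerivAt (prof φ) (((Real.exp (y / 2) / 2 : ℝ) : ℂ) *
      fderiv ℝ φ ((Real.exp (y / 2) : ℝ) : ℂ) 1) y := h2
  refine h4.congr_deriv ?_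
  push_cast
  rfl

theorem prof_hasDerivAt_dz {k : ℤ} {φ : ℂ → ℂ} (h : HasMode k φ) (hd : ContDiff ℝ ∞ φ)
    (y : ℝ) :
    HasDerivAt (prof φ) ((Real.exp (y / 2) : ℂ) * prof (BA.dz φ) y - (k / 2 : ℂ) * prof φ y) y := by
  have h1 := wi_radial hd y
  have h2 := wi_angular h hd (Real.exp (y / 2))
  convert h1 using 1
  unfold prof dz
  linear_combination (-(1 / 2 : ℂ) * I) * h2 - (k / 2 : ℂ) * φ ((Real.exp (y / 2) : ℝ) : ℂ) * I_mul_I

theorem prof_hasDerivAt_dzbar {k : ℤ} {φ : ℂ → ℂ} (h : HasMode k φ) (hd : ContDiff ℝ ∞ φ)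
    (y : ℝ) :
    HasDerivAt (prof φ)
      ((Real.exp (y / 2) : ℂ) * prof (BA.dzbar φ) y + (k / 2 : ℂ) * prof φ y) y := by
  have h1 := wi_radial hd y
  have h2 := wi_angular h hd (Real.exp (y / 2))
  convert h1 using 1
  unfold prof dzbar
  linear_combination ((1 / 2 : ℂ) * I) * h2 + (k / 2 : ℂ) * φ ((Real.exp (y / 2) : ℝ) : ℂ) * I_mul_I

end Pool.Agent.Helper68.BA
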